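import Pool.Agent.Helper75.PM.Stm

/-! PM, package SA: Selberg's choice, definitions -/

set_option autoImplicit false

namespace Pool.Agent.Helper59.PM

open Pool.Agent.Helper75.PM

noncomputable section

/-- the diagonal variables -/
def y (N e : ℕ) : ℝ := ((ArithmeticFunction.moebius e : ℤ) : ℝ) / ((Nat.totient e : ℝ) * SS N)

/-- `a h / h` -/
def x (N h : ℕ) : ℝ := ∑ e ∈ (Finset.Icc 1 N).filter (fun e => h ∣ e),
  ((ArithmeticFunction.moebius (e / h) : ℤ) : ℝ) * y N e

/-- Selberg's coefficients -/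
def av (N h : ℕ) : ℝ := if h ∈ Finset.Icc 1 N then (h : ℝ) * x N h else 0

end

end Pool.Agent.Helper59.PM
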